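import Pool.Agent.N590.PA.Main

set_option autoImplicit false

/-!
# The average `π`-adic complexity of finite sequences is `n / 2 + O(1)`

Definitions: `IsFraction`, `complexity`, `average`, `sizeI` and `sizeII` are in
`Pool.Agent.N590.PA.Defs`.
-/

namespace Pool.Agent.Results.MP_cc6759_lc.FiniteAverage

open Pool.Agent.N590.PA

universe u

/-- Let `R = ℤ[p]` be an integral domain with the basis `1, p, ..., p^(d-1)` over `ℤ`, where
(i) `d = 2` and `p² = -N`, or (ii) `d ≥ 1` is arbitrary and `p^d = N`. Then the average `E_n` of the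
`p`-adic complexity over all `N^n` words of length `n` satisfies `|E_n - n / 2| ≤ C` with a constant
`C` which does not depend on `n`. -/
theorem result :
    (∀ (R : Type u) [CommRing R] [IsDomain R] (N : ℕ) (p : R) (b : Module.Basis (Fin 2) ℤ R),
      2 ≤ N → (∀ i : Fin 2, b i = p ^ (i : ℕ)) → p ^ 2 = -(N : R) →
      ∃ C : ℝ, ∀ n : ℕ, |average p N (sizeI N b) n - (n : ℝ) / 2| ≤ C) ∧
    (∀ (R : Type u) [CommRing R] [IsDomain R] (N d : ℕ) (p : R) (b : Module.Basis (Fin d) ℤ R),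
      2 ≤ N → 1 ≤ d → (∀ i : Fin d, b i = p ^ (i : ℕ)) → p ^ d = (N : R) →
      ∃ C : ℝ, ∀ n : ℕ, |average p N (sizeII N b) n - (n : ℝ) / 2| ≤ C) :=
  ⟨fun _ _ _ _ _ b hN hb hp => caseI b hN hb hp,
    fun _ _ _ _ _ _ b hN hd hb hp => caseII b hN hd hb hp⟩

end Pool.Agent.Results.MP_cc6759_lc.FiniteAverage
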